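import Pool.Agent.helper19.FE.Spec
import Pool.Agent.helper9.IT.ORB
import Pool.Agent.helper24.IT.PRI

/-!
# Row fe:ORO (MP_bf63dc_nt): orbits whose values at the multiples of `n₀` are prime to `k! a b`
-/

set_option autoImplicit false

namespace Pool.Agent.FE

open Finset
open Pool.Agent.IT (Ad br)

theorem ORO_br (p : ℕ) [Fact p.Prime] (a b i : ℕ) (ha : ¬ p ∣ a) (hb : ¬ p ∣ b) (hi : p * (p - 1) ∣ i) :
    ((a : ZMod p) ^ i = 1 ∧ (b : ZMod p) ^ i = 1) ∧ ((br a b i : ℕ) : ZMod p) = 0 := by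
  have ha0 : (a : ZMod p) ≠ 0 := fun h => ha ((ZMod.natCast_eq_zero_iff a p).1 h)
  have hb0 : (b : ZMod p) ≠ 0 := fun h => hb ((ZMod.natCast_eq_zero_iff b p).1 h)
  have hpi : p ∣ i := (Dvd.intro _ rfl).trans hi
  have hqi : (p - 1) ∣ i := (Dvd.intro_left _ rfl).trans hi
  have h1 : ∀ x : ZMod p, x ≠ 0 → x ^ i = 1 := by
    intro x hx
    obtain ⟨m, rfl⟩ := hqi
    rw [pow_mul, ZMod.pow_card_sub_one_eq_one hx, one_pow]
  refine ⟨⟨h1 _ ha0, h1 _ hb0⟩, ?_⟩
  unfold br
  push_cast
  by_cases hab : (a : ZMod p) = b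
  · rw [hab]
    have h2 : ∀ j ∈ range i, (b : ZMod p) ^ j * (b : ZMod p) ^ (i - 1 - j) = (b : ZMod p) ^ (i - 1) := by
      intro j hj
      have hj' : j < i := mem_range.1 hj
      rw [← pow_add]
      congr 1
      omega
    rw [sum_congr rfl h2, sum_const, card_range, nsmul_eq_mul, (ZMod.natCast_eq_zero_iff i p).2 hpi, zero_mul]
  · have h3 := geom_sum₂_mul (a : ZMod p) (b : ZMod p) i
    rw [h1 _ ha0, h1 _ hb0, sub_self] at h3
    exact (mul_eq_zero.1 h3).resolve_right (sub_ne_zero.2 hab)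

/-- a prime which divides coprime integers does not exist -/
theorem ORO_cop {p : ℕ} (hp : p.Prime) {x y : ℤ} (h : IsCoprime x y) (hx : (p : ℤ) ∣ x) (hy : (p : ℤ) ∣ y) : False := by
  have h1 : IsUnit (p : ℤ) := h.isUnit_of_dvd' hx hy
  exact (Nat.prime_iff_prime_int.1 hp).not_isUnit h1

theorem ORO : ORO_stmt := by
  intro k
  refine ⟨k.factorial * k.factorial, Nat.mul_pos k.factorial_pos k.factorial_pos, ?_⟩
  intro a b c hAd M
  obtain ⟨ha, hb, hc, hab, hac, hbc, -⟩ := hAd
  obtain ⟨n₀, hn₀⟩ : ∃ n₀, n₀ = k.factorial * k.factorial := ⟨_, rfl⟩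
  rw [← hn₀]
  obtain ⟨E, hE⟩ : ∃ E, E = n₀ * M + 1 := ⟨_, rfl⟩
  obtain ⟨g, hg⟩ := Pool.Agent.IT.ORB a b E c ha hb hab
  obtain ⟨N, hN⟩ : ∃ N, N = k.factorial * a * b := ⟨_, rfl⟩
  have hN0 : N ≠ 0 := by
    rw [hN]
    have := k.factorial_pos
    positivity
  classical
  obtain ⟨S, hS⟩ : ∃ S : Finset ℕ, S = N.primeFactors.filter (fun p => ¬ p ∣ a ∧ ¬ (p : ℤ) ∣ g 0) := ⟨_, rfl⟩
  obtain ⟨t, ht⟩ : ∃ t : ℕ, t = ∏ p ∈ S, p := ⟨_, rfl⟩
  have hSp : ∀ p ∈ S, p.Prime := by
    intro p hp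
    rw [hS, mem_filter] at hp
    exact Nat.prime_of_mem_primeFactors hp.1
  have htd : ∀ p : ℕ, p.Prime → (p ∣ t ↔ p ∈ S) := by
    intro p hp
    rw [ht]
    constructor
    · intro h
      obtain ⟨q, hq, hpq⟩ := (hp.prime.dvd_finsetProd_iff _).1 h
      have := (Nat.prime_dvd_prime_iff_eq hp (hSp q hq)).1 hpq
      rw [this]
      exact hq
    · intro h
      exact dvd_prod_of_mem _ h
  refine ⟨fun i => g i + (a : ℤ) ^ (E - i) * (b : ℤ) ^ i * t, ?_, ?_⟩
  · intro i hi
    have h1 : i < E := by omega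
    have h2 : E - i = (E - (i + 1)) + 1 := by omega
    simp only
    rw [mul_add, hg i h1, h2, pow_succ (a : ℤ), pow_succ (b : ℤ)]
    ring
  · obtain ⟨h, hh⟩ : ∃ h : ℕ → ℤ, h = fun i => g i + (a : ℤ) ^ (E - i) * (b : ℤ) ^ i * t := ⟨_, rfl⟩
    rw [← hh]
    have horb : ∀ i < E, (a : ℤ) * h (i + 1) = b * h i + c := by
      intro i h1
      have h2 : E - i = (E - (i + 1)) + 1 := by omega
      rw [hh]
      simp only
      rw [mul_add, hg i h1, h2, pow_succ (a : ℤ), pow_succ (b : ℤ)]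
      ring
    have h00 : h 0 = g 0 + (a : ℤ) ^ E * t := by
      rw [hh]
      simp
    have hzero : ∀ p : ℕ, p.Prime → p ∣ N → ¬ p ∣ a → ¬ (p : ℤ) ∣ h 0 := by
      intro p hp hpN hpa hdiv
      rw [h00] at hdiv
      have hpa' : ¬ (p : ℤ) ∣ (a : ℤ) ^ E := by
        intro h1
        have h2 := (Nat.prime_iff_prime_int.1 hp).dvd_of_dvd_pow h1
        exact hpa (Int.natCast_dvd_natCast.1 h2)
      by_cases hpg : (p : ℤ) ∣ g 0
      · have h1 : (p : ℤ) ∣ (a : ℤ) ^ E * t := (dvd_add_right hpg).1 hdiv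
        rcases (Nat.prime_iff_prime_int.1 hp).dvd_or_dvd h1 with h2 | h2
        · exact hpa' h2
        · have h3 : p ∈ S := (htd p hp).1 (Int.natCast_dvd_natCast.1 h2)
          rw [hS, mem_filter] at h3
          exact h3.2.2 hpg
      · have h3 : p ∈ S := by
          rw [hS, mem_filter]
          exact ⟨Nat.mem_primeFactors.2 ⟨hp, hpN, hN0⟩, hpa, hpg⟩
        have h4 : (p : ℤ) ∣ (t : ℤ) := Int.natCast_dvd_natCast.2 ((htd p hp).2 h3)
        have h5 : (p : ℤ) ∣ (a : ℤ) ^ E * t := h4.mul_left _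
        exact hpg ((dvd_add_left h5).1 hdiv)
    intro y hy
    obtain ⟨i, hi⟩ : ∃ i, i = n₀ * y := ⟨_, rfl⟩
    rw [← hi, ← hN]
    have hiE : i < E := by
      have : n₀ * y ≤ n₀ * M := Nat.mul_le_mul_left _ hy
      omega
    have key : ∀ p : ℕ, p.Prime → p ∣ N → ¬ (p : ℤ) ∣ h i := by
      intro p hp hpN hdiv
      have hpI := Nat.prime_iff_prime_int.1 hp
      by_cases hpa : p ∣ a
      · have h1 := horb i hiE
        have h2 : (p : ℤ) ∣ (a : ℤ) * h (i + 1) := (Int.natCast_dvd_natCast.2 hpa).mul_right _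
        rw [h1] at h2
        have h3 : (p : ℤ) ∣ c := (dvd_add_right (hdiv.mul_left _)).1 h2
        exact ORO_cop hp hac (Int.natCast_dvd_natCast.2 hpa) h3
      · rcases Nat.eq_zero_or_pos i with h0 | h0
        · rw [h0] at hdiv
          exact hzero p hp hpN hpa hdiv
        · by_cases hpb : p ∣ b
          · obtain ⟨j, rfl⟩ : ∃ j, i = j + 1 := ⟨i - 1, by omega⟩
            have h1 := horb j (by omega)
            have h2 : (p : ℤ) ∣ (a : ℤ) * h (j + 1) := hdiv.mul_left _
            rw [h1] at h2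
            have h3 : (p : ℤ) ∣ c := (dvd_add_right ((Int.natCast_dvd_natCast.2 hpb).mul_right _)).1 h2
            exact ORO_cop hp hbc (Int.natCast_dvd_natCast.2 hpb) h3
          · have h1 := Pool.Agent.IT.PRI_orbit a b E c h horb 0 i (by omega)
            rw [zero_add] at h1
            have hbI : ¬ (p : ℤ) ∣ (b : ℤ) ^ i := by
              intro h2
              exact hpb (Int.natCast_dvd_natCast.1 (hpI.dvd_of_dvd_pow h2))
            by_cases hpc : (p : ℤ) ∣ c
            · have h2 : (p : ℤ) ∣ (a : ℤ) ^ i * h i := hdiv.mul_left _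
              rw [h1] at h2
              have h3 : (p : ℤ) ∣ (b : ℤ) ^ i * h 0 := (dvd_add_left (hpc.mul_right _)).1 h2
              rcases hpI.dvd_or_dvd h3 with h4 | h4
              · exact hbI h4
              · exact hzero p hp hpN hpa h4
            · have hpk : p ∣ k.factorial := by
                rw [hN] at hpN
                rcases (Nat.Prime.dvd_mul hp).1 hpN with h2 | h2
                · rcases (Nat.Prime.dvd_mul hp).1 h2 with h3 | h3
                  · exact h3
                  · exact absurd h3 hpa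
                · exact absurd h2 hpb
              have hple : p ≤ k := (Nat.Prime.dvd_factorial hp).1 hpk
              have hdn : p * (p - 1) ∣ n₀ := by
                rw [hn₀]
                refine Nat.mul_dvd_mul hpk (Nat.dvd_factorial ?_ ?_)
                · have := hp.two_le
                  omega
                · omega
              have hdi : p * (p - 1) ∣ i := by
                rw [hi]
                exact hdn.mul_right _
              haveI : Fact p.Prime := ⟨hp⟩
              obtain ⟨⟨h2, h3⟩, h4⟩ := ORO_br p a b i hpa hpb hdi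
              have h5 := congrArg (fun x : ℤ => (x : ZMod p)) h1
              push_cast at h5
              rw [h2, h3, h4, one_mul, one_mul, mul_zero, add_zero] at h5
              have h6 : ((h i : ℤ) : ZMod p) = 0 := (ZMod.intCast_zmod_eq_zero_iff_dvd _ _).2 hdiv
              rw [h6] at h5
              exact hzero p hp hpN hpa ((ZMod.intCast_zmod_eq_zero_iff_dvd _ _).1 h5.symm)
    rw [Int.isCoprime_iff_gcd_eq_one]
    refine Nat.coprime_of_dvd ?_
    intro p hp h1 h2
    rw [Int.natAbs_natCast] at h2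
    exact key p hp h2 (Int.natCast_dvd.2 h1)

end Pool.Agent.FE
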